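import Pool.Agent.Dim7.MixA
import Pool.Agent.Run7.h851.T.Iface

/-!
# T-MIXA (helper778): the abstract determinant lemma with three kinds of columns

Port of `Pool/Agent/Dim7/MixA.lean`. A matrix is a sum of blocks of two kinds (two-site classes, with one kernel for all
columns; three-site classes, with kernels for the three kinds of columns) and an integral matrix.
-/

open Pool.Agent.Run7.h851.T

namespace Pool.Agent.Run7.h778.T

noncomputable section

/-- bounds for a kernel with one generator -/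
def T2s (e : ℤ) : ℤ := T1 (e / 2) + T1 (e - e / 2)

lemma sum_T1 (N : ℕ) (e : ℤ) : ((∑ l : Fin N, (e - (l : ℕ)).toNat : ℕ) : ℤ) ≤ T1 e :=
  Pool.Agent.Dim7.Mix.sum_T1 N e

lemma T1_49 : T1 49 = 1225 := by
  unfold T1 Pool.Agent.H574R2.D3.T1; norm_num

lemma T1_47 : T1 47 = 1128 := by
  unfold T1 Pool.Agent.H574R2.D3.T1; norm_num

lemma T1_45 : T1 45 = 1035 := by
  unfold T1 Pool.Agent.H574R2.D3.T1; norm_num

/-- the kind of a column -/
def kd (m : ℕ) (j : ℕ) : Fin 3 := if j < m then 0 else if j < 2 * m then 1 else 2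

/-- the order of the generator of a kind of columns -/
def wd (b : Fin 3) : ℤ := if b = 0 then 49 else if b = 1 then 47 else 45

variable {p : ℕ} [hp : Fact p.Prime]

/-- **the abstract determinant lemma** -/
theorem mix_det {m N1 N2 : ℕ} {A1 A2 : Type} [Fintype A1] [DecidableEq A1] [Fintype A2] [DecidableEq A2]
    (E1 : A1 → ℤ) (E2 : A2 → ℤ) (M D : Fin (3 * m) → Fin (3 * m) → ℚ)
    (U1 V1 : A1 → Fin (3 * m) → ℕ → ℚ) (K1 : A1 → ℕ → ℕ → ℚ)
    (U2 V2 : A2 → Fin (3 * m) → ℕ → ℚ) (KA KB KC : A2 → ℕ → ℕ → ℚ)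
    (hM : ∀ i j, M i j =
      (∑ a, ∑ l ∈ Finset.range N1, ∑ l' ∈ Finset.range N1, U1 a i l * K1 a l l' * V1 a j l') +
      (∑ c, ∑ l ∈ Finset.range N2, ∑ l' ∈ Finset.range N2,
        U2 c i l * (if j.1 < m then KA c l l' else if j.1 < 2 * m then KB c l l' else KC c l l') * V2 c j l') +
      D i j)
    (hU1 : ∀ a i l, padicNorm p (U1 a i l) ≤ 1) (hV1 : ∀ a i l, padicNorm p (V1 a i l) ≤ 1)
    (hU2 : ∀ a i l, padicNorm p (U2 a i l) ≤ 1) (hV2 : ∀ a i l, padicNorm p (V2 a i l) ≤ 1)
    (hD : ∀ i j, padicNorm p (D i j) ≤ 1)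
    (hK1 : ∀ a, ∀ l l' : ℕ, padicNorm p (K1 a l l') ≤ (p : ℚ) ^ (E1 a - l - l' : ℤ))
    (hKA : ∀ c, ∀ l l' : ℕ, padicNorm p (KA c l l') ≤ (p : ℚ) ^ (E2 c - 1 - l - l' : ℤ))
    (hKB : ∀ c, ∀ l l' : ℕ, padicNorm p (KB c l l') ≤ (p : ℚ) ^ (E2 c - 3 - l - l' : ℤ))
    (hKC : ∀ c, ∀ l l' : ℕ, padicNorm p (KC c l l') ≤ (p : ℚ) ^ (E2 c - 5 - l - l' : ℤ)) :
    padicNorm p (Matrix.of M).det ≤ (p : ℚ) ^ (∑ a, T2s (E1 a) + ∑ c, (T1 (E2 c - 50) + 3388)) := by
  classical
  have hp1 : (1 : ℚ) ≤ p := by exact_mod_cast hp.out.one_lt.le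
  have hpp : (0 : ℚ) < p := by exact_mod_cast hp.out.pos
  -- the kernel
  have key := Pool.Agent.H574R2.D9.CB.bound' (p := p) (ι := Fin (3 * m))
    (L := (A1 × Fin N1) ⊕ ((A2 × Fin N2) ⊕ Fin (3 * m)))
    (L' := (A1 × Fin N1) ⊕ (((A2 × Fin 3) × Fin N2) ⊕ Fin (3 * m)))
    (Sum.elim (fun al => (E1 al.1 / 2 - ((al.2 : ℕ) : ℤ)).toNat)
      (Sum.elim (fun cl => ((E2 cl.1 - 50) - ((cl.2 : ℕ) : ℤ)).toNat) (fun _ => 0)))
    (Sum.elim (fun al => ((E1 al.1 - E1 al.1 / 2) - ((al.2 : ℕ) : ℤ)).toNat)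
      (Sum.elim (fun cl => (wd cl.1.2 - ((cl.2 : ℕ) : ℤ)).toNat) (fun _ => 0)))
    (fun x i => Sum.elim (fun al => U1 al.1 i al.2)
      (Sum.elim (fun cl => U2 cl.1 i cl.2) (fun i' => if i' = i then (1 : ℚ) else 0)) x)
    (fun y j => Sum.elim (fun al => V1 al.1 j al.2)
      (Sum.elim (fun cl => if cl.1.2 = kd m j.1 then V2 cl.1.1 j cl.2 else 0)
        (fun j' => if j' = j then (1 : ℚ) else 0)) y)
    (fun x y => Sum.elim
      (fun al => Sum.elim (fun al' => if al.1 = al'.1 then K1 al.1 al.2 al'.2 else 0) (fun _ => 0) y)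
      (Sum.elim
        (fun cl => Sum.elim (fun _ => 0) (Sum.elim (fun cl' => if cl.1 = cl'.1.1 then
          (if cl'.1.2 = 0 then KA cl.1 cl.2 cl'.2 else if cl'.1.2 = 1 then KB cl.1 cl.2 cl'.2
            else KC cl.1 cl.2 cl'.2) else 0) (fun _ => 0)) y)
        (fun i' => Sum.elim (fun _ => 0) (Sum.elim (fun _ => 0) (fun j' => D i' j')) y)) x)
    (by
      rintro (al | cl | i') i
      · exact hU1 _ _ _
      · exact hU2 _ _ _
      · simp only [Sum.elim_inr]
        split_ifs <;> simp)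
    (by
      rintro (al | cl | i') i
      · exact hV1 _ _ _
      · simp only [Sum.elim_inr, Sum.elim_inl]
        split_ifs
        · exact hV2 _ _ _
        · simp
      · simp only [Sum.elim_inr]
        split_ifs <;> simp)
    (by
      rintro (⟨a, l⟩ | ⟨c, l⟩ | i') (⟨a', l'⟩ | ⟨⟨c', b⟩, l'⟩ | j')
      · simp only [Sum.elim_inl]
        split_ifs with h
        · refine (hK1 a l l').trans ?_
          rw [← zpow_natCast]
          apply zpow_le_zpow_right₀ hp1
          subst h
          push_cast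
          omega
        · rw [padicNorm.zero]; positivity
      · simp only [Sum.elim_inl, Sum.elim_inr]
        rw [padicNorm.zero]; positivity
      · simp only [Sum.elim_inl, Sum.elim_inr]
        rw [padicNorm.zero]; positivity
      · simp only [Sum.elim_inl, Sum.elim_inr]
        rw [padicNorm.zero]; positivity
      · simp only [Sum.elim_inl, Sum.elim_inr]
        by_cases h : c = c'
        · rw [if_pos h]
          by_cases h0 : b = 0
          · rw [if_pos h0]
            refine (hKA c l l').trans ?_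
            rw [← zpow_natCast]
            apply zpow_le_zpow_right₀ hp1
            simp only [wd, if_pos h0]
            push_cast
            omega
          · rw [if_neg h0]
            by_cases h1 : b = 1
            · rw [if_pos h1]
              refine (hKB c l l').trans ?_
              rw [← zpow_natCast]
              apply zpow_le_zpow_right₀ hp1
              simp only [wd, if_neg h0, if_pos h1]
              push_cast
              omega
            · rw [if_neg h1]
              refine (hKC c l l').trans ?_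
              rw [← zpow_natCast]
              apply zpow_le_zpow_right₀ hp1
              simp only [wd, if_neg h0, if_neg h1]
              push_cast
              omega
        · rw [if_neg h, padicNorm.zero]; positivity
      · simp only [Sum.elim_inl, Sum.elim_inr]
        rw [padicNorm.zero]; positivity
      · simp only [Sum.elim_inl, Sum.elim_inr]
        rw [padicNorm.zero]; positivity
      · simp only [Sum.elim_inl, Sum.elim_inr]
        rw [padicNorm.zero]; positivity
      · simp only [Sum.elim_inr, add_zero, pow_zero]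
        exact hD _ _)
  have hMM : (Matrix.of fun i j : Fin (3 * m) => ∑ x : (A1 × Fin N1) ⊕ ((A2 × Fin N2) ⊕ Fin (3 * m)),
      ∑ y : (A1 × Fin N1) ⊕ (((A2 × Fin 3) × Fin N2) ⊕ Fin (3 * m)),
      Sum.elim (fun al => U1 al.1 i al.2)
      (Sum.elim (fun cl => U2 cl.1 i cl.2) (fun i' => if i' = i then (1 : ℚ) else 0)) x *
      (Sum.elim
      (fun al => Sum.elim (fun al' => if al.1 = al'.1 then K1 al.1 al.2 al'.2 else 0) (fun _ => 0) y)
      (Sum.elim
        (fun cl => Sum.elim (fun _ => 0) (Sum.elim (fun cl' => if cl.1 = cl'.1.1 then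
          (if cl'.1.2 = 0 then KA cl.1 cl.2 cl'.2 else if cl'.1.2 = 1 then KB cl.1 cl.2 cl'.2
            else KC cl.1 cl.2 cl'.2) else 0) (fun _ => 0)) y)
        (fun i' => Sum.elim (fun _ => 0) (Sum.elim (fun _ => 0) (fun j' => D i' j')) y)) x) *
      Sum.elim (fun al => V1 al.1 j al.2)
      (Sum.elim (fun cl => if cl.1.2 = kd m j.1 then V2 cl.1.1 j cl.2 else 0)
        (fun j' => if j' = j then (1 : ℚ) else 0)) y) = Matrix.of M := by
    ext i j
    simp only [Matrix.of_apply]
    rw [hM i j]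
    simp only [Fintype.sum_sum_type, Sum.elim_inl, Sum.elim_inr, mul_zero, zero_mul, Finset.sum_const_zero,
      add_zero, zero_add]
    rw [← add_assoc]
    congr 1
    · congr 1
      · rw [Fintype.sum_prod_type]
        refine Finset.sum_congr rfl fun a _ => ?_
        rw [Finset.sum_range]
        refine Finset.sum_congr rfl fun l _ => ?_
        rw [Finset.sum_range, Fintype.sum_prod_type, Finset.sum_eq_single a]
        · refine Finset.sum_congr rfl fun l' _ => ?_
          rw [if_pos rfl]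
        · intro b _ hb
          apply Finset.sum_eq_zero
          intro l' _
          rw [if_neg (Ne.symm hb), mul_zero, zero_mul]
        · intro h; exact absurd (Finset.mem_univ _) h
      · rw [Fintype.sum_prod_type]
        refine Finset.sum_congr rfl fun c _ => ?_
        rw [Finset.sum_range]
        refine Finset.sum_congr rfl fun l _ => ?_
        rw [Finset.sum_range, Fintype.sum_prod_type, Fintype.sum_prod_type, Finset.sum_eq_single c]
        · rw [Finset.sum_eq_single (kd m j.1)]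
          · refine Finset.sum_congr rfl fun l' _ => ?_
            rw [if_pos rfl, if_pos rfl]
            congr 2
            dsimp only
            have n1 : ¬ ((1 : Fin 3) = 0) := by decide
            have n2 : ¬ ((2 : Fin 3) = 0) := by decide
            have n3 : ¬ ((2 : Fin 3) = 1) := by decide
            unfold kd
            by_cases hj : j.1 < m
            · simp only [if_pos hj, if_true]
            · by_cases hj2 : j.1 < 2 * m
              · simp only [if_neg hj, if_pos hj2, if_neg n1, if_true]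
              · simp only [if_neg hj, if_neg hj2, if_neg n2, if_neg n3]
          · intro b _ hb
            apply Finset.sum_eq_zero
            intro l' _
            rw [if_neg hb, mul_zero]
          · intro h; exact absurd (Finset.mem_univ _) h
        · intro b _ hb
          apply Finset.sum_eq_zero
          intro b' _
          apply Finset.sum_eq_zero
          intro l' _
          rw [if_neg (Ne.symm hb), mul_zero, zero_mul]
        · intro h; exact absurd (Finset.mem_univ _) h
    · rw [Finset.sum_eq_single i, Finset.sum_eq_single j]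
      · rw [if_pos rfl, if_pos rfl]; ring
      · intro b _ hb; rw [if_neg hb, mul_zero]
      · intro h; exact absurd (Finset.mem_univ _) h
      · intro b _ hb
        rw [if_neg hb]
        simp
      · intro h; exact absurd (Finset.mem_univ _) h
  rw [hMM] at key
  refine key.trans ?_
  rw [← zpow_natCast]
  apply zpow_le_zpow_right₀ hp1
  simp only [Fintype.sum_sum_type, Sum.elim_inl, Sum.elim_inr, Finset.sum_const_zero, add_zero]
  rw [Fintype.sum_prod_type, Fintype.sum_prod_type, Fintype.sum_prod_type, Fintype.sum_prod_type,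
    Fintype.sum_prod_type]
  simp only [Fin.sum_univ_three]
  push_cast
  have t1 : ∑ a, (∑ l : Fin N1, ((E1 a / 2 - ((l : ℕ) : ℤ)).toNat : ℤ)) +
      ∑ a, (∑ l : Fin N1, ((E1 a - E1 a / 2 - ((l : ℕ) : ℤ)).toNat : ℤ)) ≤ ∑ a, T2s (E1 a) := by
    rw [← Finset.sum_add_distrib]
    refine Finset.sum_le_sum fun a _ => ?_
    unfold T2s
    have h1 := sum_T1 N1 (E1 a / 2)
    have h2 := sum_T1 N1 (E1 a - E1 a / 2)
    push_cast at h1 h2
    exact add_le_add h1 h2
  have t2 : ∑ c, (∑ l : Fin N2, ((E2 c - 50 - ((l : ℕ) : ℤ)).toNat : ℤ)) +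
      ∑ c : A2, ((∑ l : Fin N2, ((wd 0 - ((l : ℕ) : ℤ)).toNat : ℤ)) +
        (∑ l : Fin N2, ((wd 1 - ((l : ℕ) : ℤ)).toNat : ℤ)) +
        ∑ l : Fin N2, ((wd 2 - ((l : ℕ) : ℤ)).toNat : ℤ)) ≤
      ∑ c, (T1 (E2 c - 50) + 3388) := by
    rw [← Finset.sum_add_distrib]
    refine Finset.sum_le_sum fun a _ => ?_
    have e0 : wd 0 = 49 := rfl
    have e1 : wd 1 = 47 := rfl
    have e2 : wd 2 = 45 := rfl
    rw [e0, e1, e2]
    have h1 := sum_T1 N2 (E2 a - 50)
    have h2 := sum_T1 N2 49
    have h3 := sum_T1 N2 47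
    have h4 := sum_T1 N2 45
    rw [T1_49] at h2
    rw [T1_47] at h3
    rw [T1_45] at h4
    push_cast at h1 h2 h3 h4
    linarith
  linarith

/-- the constants of `St_D3_mix`: two-site classes of total order `127`, three-site classes of orders `191, 189, 187` -/
theorem mix_det' {m N1 N2 : ℕ} {A1 A2 : Type} [Fintype A1] [DecidableEq A1] [Fintype A2] [DecidableEq A2]
    (M D : Fin (3 * m) → Fin (3 * m) → ℚ)
    (U1 V1 : A1 → Fin (3 * m) → ℕ → ℚ) (K1 : A1 → ℕ → ℕ → ℚ)
    (U2 V2 : A2 → Fin (3 * m) → ℕ → ℚ) (KA KB KC : A2 → ℕ → ℕ → ℚ)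
    (hM : ∀ i j, M i j =
      (∑ a, ∑ l ∈ Finset.range N1, ∑ l' ∈ Finset.range N1, U1 a i l * K1 a l l' * V1 a j l') +
      (∑ c, ∑ l ∈ Finset.range N2, ∑ l' ∈ Finset.range N2,
        U2 c i l * (if j.1 < m then KA c l l' else if j.1 < 2 * m then KB c l l' else KC c l l') * V2 c j l') +
      D i j)
    (hU1 : ∀ a i l, padicNorm p (U1 a i l) ≤ 1) (hV1 : ∀ a i l, padicNorm p (V1 a i l) ≤ 1)
    (hU2 : ∀ a i l, padicNorm p (U2 a i l) ≤ 1) (hV2 : ∀ a i l, padicNorm p (V2 a i l) ≤ 1)
    (hD : ∀ i j, padicNorm p (D i j) ≤ 1)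
    (hK1 : ∀ a, ∀ l l' : ℕ, padicNorm p (K1 a l l') ≤ (p : ℚ) ^ (127 - l - l' : ℤ))
    (hKA : ∀ c, ∀ l l' : ℕ, padicNorm p (KA c l l') ≤ (p : ℚ) ^ (191 - l - l' : ℤ))
    (hKB : ∀ c, ∀ l l' : ℕ, padicNorm p (KB c l l') ≤ (p : ℚ) ^ (189 - l - l' : ℤ))
    (hKC : ∀ c, ∀ l l' : ℕ, padicNorm p (KC c l l') ≤ (p : ℚ) ^ (187 - l - l' : ℤ)) :
    padicNorm p (Matrix.of M).det ≤
      (p : ℚ) ^ (4096 * (Fintype.card A1 : ℤ) + 13541 * (Fintype.card A2 : ℤ)) := by
  have h := mix_det (p := p) (fun _ : A1 => 127) (fun _ : A2 => 192) M D U1 V1 K1 U2 V2 KA KB KC hM hU1 hV1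
    hU2 hV2 hD hK1 (fun c l l' => by simpa using hKA c l l') (fun c l l' => by simpa using hKB c l l')
    (fun c l l' => by simpa using hKC c l l')
  have e1 : T2s 127 = 4096 := by
    unfold T2s T1 Pool.Agent.H574R2.D3.T1; norm_num
  have e2 : T1 (192 - 50) + 3388 = 13541 := by
    unfold T1 Pool.Agent.H574R2.D3.T1; norm_num
  simp only [e1, e2, Finset.sum_const, Finset.card_univ, nsmul_eq_mul] at h
  rwa [mul_comm (4096 : ℤ), mul_comm (13541 : ℤ)]

end

end Pool.Agent.Run7.h778.T
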